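import Pool.Agent.H.MP_2c0ed3_al.Lev

set_option maxHeartbeats 400000

namespace Pool.Agent.H.MP_2c0ed3_al

variable {F R : Type} [Field F] [Ring R] [Algebra F R]

def JJ (P : Submodule F R) (k : ℕ) : Submodule F R :=
  Submodule.span F {z | ∃ l : List R, k ≤ l.length ∧ (∀ x ∈ l, x ∈ P) ∧ l.prod = z}

theorem JJ_mono {P Q : Submodule F R} (h : P ≤ Q) {k m : ℕ} (hk : m ≤ k) : JJ P k ≤ JJ Q m :=
  Submodule.span_mono fun _ ⟨l, h1, h2, h3⟩ => ⟨l, hk.trans h1, fun x hx => h (h2 x hx), h3⟩

theorem JJ_mul {P : Submodule F R} {k m : ℕ} {x y : R} (hx : x ∈ JJ P k) (hy : y ∈ JJ P m) :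
    x * y ∈ JJ P (k + m) := by
  have := Submodule.mul_mem_mul hx hy
  rw [JJ, JJ, Submodule.span_mul_span] at this
  refine Submodule.span_mono ?_ this
  rintro _ ⟨_, ⟨l, h1, h2, rfl⟩, _, ⟨l', h1', h2', rfl⟩, rfl⟩
  refine ⟨l ++ l', by simp; omega, fun x hx => ?_, by simp⟩
  rcases List.mem_append.1 hx with h | h
  exacts [h2 x h, h2' x h]

theorem mem_JJ_one {P : Submodule F R} {x : R} (hx : x ∈ P) : x ∈ JJ P 1 :=
  Submodule.subset_span ⟨[x], by simp, by simpa using hx, by simp⟩

theorem prod_mem_JJ {P : Submodule F R} {l : List R} (h : ∀ x ∈ l, x ∈ P) :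
    l.prod ∈ JJ P l.length := Submodule.subset_span ⟨l, le_rfl, h, rfl⟩

theorem JJ_bot {P : Submodule F R} {n : ℕ}
    (h : ∀ l : List R, l.length = n → (∀ x ∈ l, x ∈ P) → l.prod = 0) : JJ P n = ⊥ := by
  refine Submodule.span_eq_bot.2 ?_
  rintro _ ⟨l, h1, h2, rfl⟩
  rw [← List.prod_take_mul_prod_drop l n, h (l.take n) (by simp [h1])
    (fun x hx => h2 x (List.mem_of_mem_take hx)), zero_mul]

theorem JJ_ad {P Q : Submodule F R} (hPQ : P ≤ Q) {y : R} (hy : ∀ p ∈ P, y * p - p * y ∈ Q)
    {k : ℕ} {z : R} (hz : z ∈ JJ P k) : y * z - z * y ∈ JJ Q k := by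
  have h1 : ∀ l : List R, (∀ x ∈ l, x ∈ P) → y * l.prod - l.prod * y ∈ JJ Q l.length := by
    intro l
    induction l with
    | nil => intro _; simp
    | cons x l ih =>
      intro hl
      have hx := hl x List.mem_cons_self
      have hl' := fun z hz => hl z (List.mem_cons_of_mem _ hz)
      have e : y * (x :: l).prod - (x :: l).prod * y =
          (y * x - x * y) * l.prod + x * (y * l.prod - l.prod * y) := by
        simp only [List.prod_cons]; noncomm_ring
      rw [e, List.length_cons, add_comm l.length]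
      exact Submodule.add_mem _
        (JJ_mul (mem_JJ_one (hy x hx)) (prod_mem_JJ fun z hz => hPQ (hl' z hz)))
        (JJ_mul (mem_JJ_one (hPQ hx)) (ih hl'))
  induction hz using Submodule.span_induction with
  | mem z hz =>
    obtain ⟨l, h2, h3, rfl⟩ := hz
    exact JJ_mono le_rfl h2 (h1 l h3)
  | zero => simp
  | add a b _ _ ha hb =>
    have := Submodule.add_mem _ ha hb
    convert this using 1
    noncomm_ring
  | smul c a _ ha =>
    have := Submodule.smul_mem _ c ha
    rwa [smul_sub, ← mul_smul_comm, ← smul_mul_assoc] at this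

theorem nil_add {Q : Submodule F R} {N : ℕ} (hQ : Q ^ N = ⊥) {g s : R} (hg : IsNilpotent g)
    (hs : s ∈ Q) (hgQ : ∀ q ∈ Q, g * q - q * g ∈ Q) : IsNilpotent (s + g) := by
  let W : ℕ → Submodule F R := fun k => Q ^ k * ⊤
  have hW : ∀ k, W (k + 1) = Q * W k := fun k => by simp only [W]; rw [pow_succ', mul_assoc]
  have hW0 : W 0 = ⊤ := by simp [W]
  have hdec : ∀ k, W (k + 1) ≤ W k := by
    intro k
    induction k with
    | zero => rw [hW0]; exact le_top
    | succ k ih => rw [hW (k + 1)]; nth_rewrite 2 [hW k]; exact mul_le_mul_right ih Q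
  have hsW : ∀ k, ∀ z ∈ W k, s * z ∈ W (k + 1) := fun k z hz => by
    rw [hW]; exact Submodule.mul_mem_mul hs hz
  have hgW : ∀ k, ∀ z ∈ W k, g * z ∈ W k := by
    intro k
    induction k with
    | zero => intro z _; rw [hW0]; trivial
    | succ k ih =>
      intro z hz
      rw [hW] at hz ⊢
      refine Submodule.mul_induction_on hz (fun q hq v hv => ?_) (fun a b ha hb => ?_)
      · have e : g * (q * v) = (g * q - q * g) * v + q * (g * v) := by noncomm_ring
        rw [e]
        exact Submodule.add_mem _ (Submodule.mul_mem_mul (hgQ q hq) hv)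
          (Submodule.mul_mem_mul hq (ih v hv))
      · rw [mul_add]; exact Submodule.add_mem _ ha hb
  have hgj : ∀ k j, ∀ z ∈ W k, g ^ j * z ∈ W k := by
    intro k j z hz
    induction j with
    | zero => simpa using hz
    | succ j ih => rw [pow_succ', mul_assoc]; exact hgW k _ ih
  have h1 : ∀ k j, ∀ z ∈ W k, (s + g) ^ j * z - g ^ j * z ∈ W (k + 1) := by
    intro k j z hz
    induction j with
    | zero => simp
    | succ j ih =>
      have e : (s + g) ^ (j + 1) * z - g ^ (j + 1) * z =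
          s * ((s + g) ^ j * z - g ^ j * z) + g * ((s + g) ^ j * z - g ^ j * z) + s * (g ^ j * z) := by
        rw [pow_succ', pow_succ']; noncomm_ring
      rw [e]
      exact Submodule.add_mem _ (Submodule.add_mem _ (hdec _ (hsW _ _ ih)) (hgW _ _ ih))
        (hsW _ _ (hgj k j z hz))
  obtain ⟨m, hm⟩ := hg
  have h2 : ∀ k, ((s + g) ^ m) ^ k ∈ W k := by
    intro k
    induction k with
    | zero => rw [hW0]; trivial
    | succ k ih =>
      have := h1 k m _ ih
      rwa [hm, zero_mul, sub_zero, ← pow_succ'] at this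
  have h3 := h2 N
  simp only [W, hQ, Submodule.bot_mul, Submodule.mem_bot, ← pow_mul] at h3
  exact ⟨_, h3⟩

theorem pow_le_JJ {Q P : Submodule F R} (h : Q ≤ JJ P 1) (k : ℕ) : Q ^ k ≤ JJ P k := by
  induction k with
  | zero =>
    rw [pow_zero, Submodule.one_le]
    exact Submodule.subset_span ⟨[], by simp, by simp, by simp⟩
  | succ k ih =>
    rw [pow_succ]
    exact Submodule.mul_le.2 fun a ha b hb => JJ_mul (ih ha) (h hb)

attribute [local instance 100] LieRing.ofAssociativeRing

theorem abs_main (P : ℕ → Submodule F R) (hP : Monotone P) (G : LieSubalgebra F R)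
    (h1 : ∀ d, ∃ n, ∀ l : List R, l.length = n → (∀ x ∈ l, x ∈ P d) → l.prod = 0)
    (h2 : ∀ y ∈ G, ∃ d', ∀ d, ∀ p ∈ P d, y * p - p * y ∈ P (d + d'))
    (h3 : ∀ y ∈ G, IsNilpotent y) (a : R) (ha : a ∈ P 0) (x : Fin 3 → R) (hx : ∀ j, x j ∈ G)
    (h4 : ∀ n, ∃ (l : List (Fin 3)) (v : R), n ≤ l.length ∧ v ∈ P 0 ∧
      (l.map fun j => LieAlgebra.ad F R a * LieAlgebra.ad F R (x j)).prod v ≠ 0) :
    ∃ (A : Type) (_ : LieRing A) (_ : LieAlgebra F A),
      (∀ x : A, IsNilpotent (rmul F A x)) ∧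
        ∃ a : A, a ∈ lieRad F A ∧ rmul F A a ∉ assRad (multAlg F A) := by
  classical
  have hJ : ∀ {d d' : ℕ} {k}, d ≤ d' → JJ (P d) k ≤ JJ (P d') k := fun h => JJ_mono (hP h) le_rfl
  let S : Submodule F R :=
    { carrier := {s | ∃ d, s ∈ JJ (P d) 1}
      add_mem' := by
        rintro a b ⟨d, hd⟩ ⟨d', hd'⟩
        exact ⟨d + d', Submodule.add_mem _ (hJ (by omega) hd) (hJ (by omega) hd')⟩
      zero_mem' := ⟨0, Submodule.zero_mem _⟩
      smul_mem' := by
        rintro c a ⟨d, hd⟩
        exact ⟨d, Submodule.smul_mem _ c hd⟩ }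
  have hSS : ∀ s ∈ S, ∀ s' ∈ S, s * s' ∈ S := by
    rintro a ⟨d, hd⟩ b ⟨d', hd'⟩
    exact ⟨d + d', JJ_mono le_rfl (by omega)
      (JJ_mul (hJ (d' := d + d') (by omega) hd) (hJ (by omega) hd'))⟩
  have hGS : ∀ y ∈ G, ∀ s ∈ S, y * s - s * y ∈ S := by
    rintro y hy s ⟨d, hd⟩
    obtain ⟨d', hd'⟩ := h2 y hy
    exact ⟨d + d', JJ_ad (hP (by omega)) (hd' d) hd⟩
  have hAS : ∀ z ∈ S ⊔ G.toSubmodule, ∀ s ∈ S, ⁅z, s⁆ ∈ S := by
    intro z hz s hs
    obtain ⟨s', hs', y, hy, rfl⟩ := Submodule.mem_sup.1 hz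
    rw [add_lie]
    exact S.add_mem (S.sub_mem (hSS _ hs' _ hs) (hSS _ hs _ hs')) (hGS y hy s hs)
  let A : LieSubalgebra F R :=
    { S ⊔ G.toSubmodule with
      lie_mem' := by
        intro z z' hz hz'
        obtain ⟨s', hs', y', hy', rfl⟩ := Submodule.mem_sup.1 hz'
        rw [lie_add]
        refine Submodule.add_mem _ (Submodule.mem_sup_left (hAS z hz s' hs')) ?_
        obtain ⟨s, hs, y, hy, rfl⟩ := Submodule.mem_sup.1 hz
        rw [add_lie, ← lie_skew s y']
        exact Submodule.add_mem_sup (S.neg_mem (hGS y' hy' s hs)) (G.lie_mem hy hy') }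
  have hmem : ∀ z, z ∈ A ↔ z ∈ S ⊔ G.toSubmodule := fun _ => Iff.rfl
  have hP0 : ∀ v ∈ P 0, v ∈ S := fun v hv => ⟨0, mem_JJ_one hv⟩
  refine ⟨A, inferInstance, inferInstance, fun z => ?_, ⟨a, Submodule.mem_sup_left (hP0 a ha)⟩,
    ?_, fun h => ?_⟩
  · refine IsNilpotent.neg (LieAlgebra.isNilpotent_ad_of_isNilpotent ?_)
    obtain ⟨s, ⟨d, hd⟩, g, hg, e⟩ := Submodule.mem_sup.1 z.2
    rw [← e]
    obtain ⟨d', hd'⟩ := h2 g hg
    obtain ⟨m, hm⟩ : IsNilpotent (LieAlgebra.ad F R g) :=
      LieAlgebra.ad_nilpotent_of_nilpotent (h3 g hg)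
    have hj : ∀ j, (LieAlgebra.ad F R g ^ j) s ∈ JJ (P (d + j * d')) 1 := by
      intro j
      induction j with
      | zero => simpa using hd
      | succ j ih =>
        rw [pow_succ', Module.End.mul_apply, add_mul, one_mul, ← add_assoc]
        exact JJ_ad (hP (by omega)) (hd' _) ih
    let Q : Submodule F R := Submodule.span F (Set.range fun j => (LieAlgebra.ad F R g ^ j) s)
    have hQ : Q ≤ JJ (P (d + m * d')) 1 := by
      refine Submodule.span_le.2 ?_
      rintro _ ⟨j, rfl⟩
      by_cases hjm : j ≤ m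
      · exact hJ (by nlinarith) (hj j)
      · show (LieAlgebra.ad F R g ^ j) s ∈ _
        rw [pow_eq_zero_of_le (le_of_not_ge hjm) hm]
        exact Submodule.zero_mem _
    obtain ⟨n, hn⟩ := h1 (d + m * d')
    refine nil_add (Q := Q) (N := n) (eq_bot_iff.2 ((pow_le_JJ hQ n).trans (JJ_bot hn).le))
      (h3 g hg) (Submodule.subset_span ⟨0, rfl⟩) fun q hq => ?_
    have : Q ≤ Q.comap (LieAlgebra.ad F R g) := by
      refine Submodule.span_le.2 ?_
      rintro _ ⟨j, rfl⟩
      exact Submodule.subset_span ⟨j + 1, by simp only [pow_succ']; rfl⟩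
    exact this hq
  · let I : LieIdeal F A :=
      { S.comap A.toSubmodule.subtype with
        lie_mem := fun {z s} hs => hAS z z.2 s hs }
    have hI : I ≤ lieRad F A := by
      refine le_sSup fun T hT => ?_
      have hd : ∀ t : A, ∃ d, t ∈ T → (t : R) ∈ JJ (P d) 1 := by
        intro t
        by_cases ht : t ∈ T
        · obtain ⟨d, hd⟩ := hT ht
          exact ⟨d, fun _ => hd⟩
        · exact ⟨0, fun h => absurd h ht⟩
      choose f hf using hd
      obtain ⟨d, hd⟩ := (T.image f).bddAbove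
      have hT' : ∀ t ∈ T, (t : R) ∈ JJ (P d) 1 := fun t ht =>
        hJ (hd (Finset.mem_coe.2 (Finset.mem_image_of_mem _ ht))) (hf t ht)
      let H : LieSubalgebra F A :=
        { (JJ (P d) 1).comap A.toSubmodule.subtype with
          lie_mem' := fun {z z'} hz hz' => Submodule.sub_mem _
            (JJ_mono le_rfl (by omega) (JJ_mul hz hz')) (JJ_mono le_rfl (by omega) (JJ_mul hz' hz)) }
      have hle : LieSubalgebra.lieSpan F A (T : Set A) ≤ H := LieSubalgebra.lieSpan_le.2 hT'
      set L := LieSubalgebra.lieSpan F A (T : Set A)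
      have key : ∀ k, ∀ y ∈ LieModule.lowerCentralSeries F L L k,
          ((y : A) : R) ∈ JJ (P d) (k + 1) := by
        intro k
        induction k with
        | zero => intro y _; exact hle y.2
        | succ k ih =>
          intro y hy
          rw [LieModule.lowerCentralSeries_succ,
            ← LieSubmodule.mem_toSubmodule, LieSubmodule.lieIdeal_oper_eq_linear_span'] at hy
          induction hy using Submodule.span_induction with
          | mem y hy =>
            obtain ⟨u, -, z, hz, rfl⟩ := hy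
            have hu : ((u : A) : R) ∈ JJ (P d) 1 := hle u.2
            exact Submodule.sub_mem _ (JJ_mono le_rfl (by omega) (JJ_mul hu (ih z hz)))
              (JJ_mul (ih z hz) hu)
          | zero => exact Submodule.zero_mem _
          | add x y _ _ hx hy => exact Submodule.add_mem _ hx hy
          | smul c x _ hx => exact Submodule.smul_mem _ c hx
      obtain ⟨n, hn⟩ := h1 d
      refine (LieModule.isNilpotent_iff F L L).2 ⟨n, eq_bot_iff.2 fun y hy => ?_⟩
      have := JJ_mono le_rfl (Nat.le_succ n) (key n y hy)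
      rw [JJ_bot hn, Submodule.mem_bot] at this
      rw [LieSubmodule.mem_bot]
      exact Subtype.ext (Subtype.ext this)
    exact hI (hP0 a ha)
  · obtain ⟨I, hI, hr⟩ := exists_LN h
    let a' : A := ⟨a, Submodule.mem_sup_left (hP0 a ha)⟩
    let x' : Fin 3 → A := fun j => ⟨x j, Submodule.mem_sup_right (hx j)⟩
    let r : Fin 3 → Module.End F A := fun j => rmul F A a' * rmul F A (x' j)
    obtain ⟨n, hn⟩ := hI.2.2 (Set.range r) (Set.finite_range _) (by
      rintro _ ⟨j, rfl⟩
      exact (hI.2.1 _ (NonUnitalAlgebra.subset_adjoin F ⟨x' j, rfl⟩) _ hr).2)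
    obtain ⟨l, v, hl, hv, hne⟩ := h4 n
    apply hne
    have e : ∀ l : List (Fin 3), ∀ v : A, (((l.map r).prod v : A) : R) =
        (l.map fun j => LieAlgebra.ad F R a * LieAlgebra.ad F R (x j)).prod v := by
      intro l v
      induction l with
      | nil => rfl
      | cons j l ih =>
        simp only [List.map_cons, List.prod_cons, Module.End.mul_apply, ← ih, r, rmul,
          LinearMap.neg_apply, map_neg, neg_neg]
        rfl
    have e2 : (l.map r).prod = 0 := by
      rw [← List.prod_take_mul_prod_drop _ n, hn ((l.map r).take n) (by simp [hl])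
        (fun y hy => by
          obtain ⟨j, -, rfl⟩ := List.mem_map.1 (List.mem_of_mem_take hy)
          exact ⟨j, rfl⟩), zero_mul]
    rw [← e l ⟨v, Submodule.mem_sup_left (hP0 v hv)⟩, e2]
    rfl

end Pool.Agent.H.MP_2c0ed3_al
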