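import Mathlib

namespace Pool.Agent.H.MP_2c0ed3_al

section

variable (F A : Type) [Field F] [LieRing A] [LieAlgebra F A]

/-- the sum of all locally nilpotent ideals of a Lie algebra -/
def lieRad : LieIdeal F A :=
  sSup {I : LieIdeal F A | ∀ T : Finset A, (T : Set A) ⊆ (I : Set A) →
    LieRing.IsNilpotent (LieSubalgebra.lieSpan F A (T : Set A))}

/-- right multiplication `x ↦ [x, a]` -/
def rmul (a : A) : Module.End F A := -LieAlgebra.ad F A a

/-- the multiplication algebra -/
def multAlg : NonUnitalSubalgebra F (Module.End F A) :=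
  NonUnitalAlgebra.adjoin F (Set.range (rmul F A))

end

section

variable {F E : Type} [Field F] [Ring E] [Algebra F E]

/-- `I` is a locally nilpotent ideal of the associative algebra `S` -/
def IsLocNilIdeal (S : NonUnitalSubalgebra F E) (I : Submodule F E) : Prop :=
  (I : Set E) ⊆ (S : Set E) ∧ (∀ s ∈ S, ∀ x ∈ I, s * x ∈ I ∧ x * s ∈ I) ∧
    ∀ T : Finset E, (T : Set E) ⊆ (I : Set E) → ∃ n : ℕ, 1 ≤ n ∧ ∀ l : List E, l.length = n →
      (∀ x ∈ l, x ∈ NonUnitalAlgebra.adjoin F (T : Set E)) → l.prod = 0

/-- the sum of all locally nilpotent ideals of the associative algebra `S` -/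
def assRad (S : NonUnitalSubalgebra F E) : Submodule F E := sSup {I | IsLocNilIdeal S I}

end

end Pool.Agent.H.MP_2c0ed3_al
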