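import Pool.Agent.H.MP_2c0ed3_al.Defs

set_option maxHeartbeats 400000

namespace Pool.Agent.H.MP_2c0ed3_al

variable {F E : Type} [Field F] [Ring E] [Algebra F E]

def LN (S : NonUnitalSubalgebra F E) (I : Submodule F E) : Prop :=
  (I : Set E) ⊆ (S : Set E) ∧ (∀ s ∈ S, ∀ x ∈ I, s * x ∈ I ∧ x * s ∈ I) ∧
    ∀ T : Set E, T.Finite → T ⊆ (I : Set E) → ∃ n : ℕ, ∀ l : List E, l.length = n →
      (∀ x ∈ l, x ∈ T) → l.prod = 0

theorem LN_of {S : NonUnitalSubalgebra F E} {I : Submodule F E} (h : IsLocNilIdeal S I) :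
    LN S I := by
  refine ⟨h.1, h.2.1, fun T hT hI => ?_⟩
  obtain ⟨n, -, hn⟩ := h.2.2 hT.toFinset (by simpa using hI)
  exact ⟨n, fun l hl hx => hn l hl fun x hx' =>
    NonUnitalAlgebra.subset_adjoin F (by simpa using hx x hx')⟩

theorem finite_lists {T : Set E} (hT : T.Finite) (m : ℕ) :
    {l : List E | l.length = m ∧ ∀ x ∈ l, x ∈ T}.Finite := by
  haveI := hT.to_subtype
  refine ((List.finite_length_eq T m).image (List.map Subtype.val)).subset ?_
  rintro l ⟨h1, h2⟩
  exact ⟨l.attachWith _ h2, by simpa using h1, by simp⟩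

theorem LN_sup {S : NonUnitalSubalgebra F E} {I J : Submodule F E} (hI : LN S I) (hJ : LN S J) :
    LN S (I ⊔ J) := by
  refine ⟨fun x hx => ?_, fun s hs x hx => ?_, fun T hT hTs => ?_⟩
  · obtain ⟨a, ha, b, hb, rfl⟩ := Submodule.mem_sup.1 hx
    exact S.add_mem (hI.1 ha) (hJ.1 hb)
  · obtain ⟨a, ha, b, hb, rfl⟩ := Submodule.mem_sup.1 hx
    rw [mul_add, add_mul]
    exact ⟨Submodule.add_mem_sup (hI.2.1 s hs a ha).1 (hJ.2.1 s hs b hb).1,
      Submodule.add_mem_sup (hI.2.1 s hs a ha).2 (hJ.2.1 s hs b hb).2⟩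
  have hex : ∀ t : E, ∃ a, t ∈ T → a ∈ I ∧ t - a ∈ J := by
    intro t
    by_cases ht : t ∈ T
    · obtain ⟨a, ha, b, hb, rfl⟩ := Submodule.mem_sup.1 (hTs ht)
      exact ⟨a, fun _ => ⟨ha, by simpa using hb⟩⟩
    · exact ⟨0, fun h => absurd h ht⟩
  choose a ha using hex
  have hS : ∀ t ∈ T, t ∈ S := by
    intro t ht
    have := S.add_mem (hI.1 (ha t ht).1) (hJ.1 (ha t ht).2)
    simpa using this
  obtain ⟨m, hm⟩ := hI.2.2 (a '' T) (hT.image a) (by rintro _ ⟨t, ht, rfl⟩; exact (ha t ht).1)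
  have h1 : ∀ l : List E, (∀ x ∈ l, x ∈ T) → ∀ j ∈ J, j * l.prod ∈ J := by
    intro l
    induction l with
    | nil => intro _ j hj; simpa using hj
    | cons x l ih =>
      intro hl j hj
      rw [List.prod_cons, ← mul_assoc]
      exact ih (fun y hy => hl y (List.mem_cons_of_mem _ hy)) _
        (hJ.2.1 x (hS x (hl x List.mem_cons_self)) j hj).2
  have h2 : ∀ l : List E, (∀ x ∈ l, x ∈ T) → l.prod - (l.map a).prod ∈ J := by
    intro l
    induction l with
    | nil => intro _; simp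
    | cons x l ih =>
      intro hl
      have hx := hl x List.mem_cons_self
      have hl' := fun y hy => hl y (List.mem_cons_of_mem _ hy)
      have e : (x :: l).prod - ((x :: l).map a).prod =
          (x - a x) * l.prod + a x * (l.prod - (l.map a).prod) := by
        simp only [List.prod_cons, List.map_cons]; noncomm_ring
      rw [e]
      exact J.add_mem (h1 l hl' _ (ha x hx).2) (hJ.2.1 _ (hI.1 (ha x hx).1) _ (ih hl')).1
  obtain ⟨n, hn⟩ := hJ.2.2 _ ((finite_lists hT m).image List.prod) (by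
    rintro _ ⟨l, ⟨hl1, hl2⟩, rfl⟩
    have := h2 l hl2
    rw [hm (l.map a) (by simpa using hl1) (by
      intro x hx
      obtain ⟨y, hy, rfl⟩ := List.mem_map.1 hx
      exact ⟨y, hl2 y hy, rfl⟩), sub_zero] at this
    exact this)
  have h3 : ∀ k : ℕ, ∀ l : List E, l.length = k * m → (∀ x ∈ l, x ∈ T) →
      ∃ l' : List E, l'.length = k ∧ l'.prod = l.prod ∧
        ∀ x ∈ l', x ∈ List.prod '' {l : List E | l.length = m ∧ ∀ x ∈ l, x ∈ T} := by
    intro k
    induction k with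
    | zero =>
      intro l hl _
      have : l = [] := List.length_eq_zero_iff.1 (by simpa using hl)
      exact ⟨[], rfl, by rw [this], by simp⟩
    | succ k ih =>
      intro l hl hT'
      have hle : m ≤ l.length := by rw [hl]; nlinarith
      obtain ⟨l', h1, h2, h3⟩ := ih (l.drop m) (by rw [List.length_drop, hl]; simp [add_mul])
        (fun x hx => hT' x (List.mem_of_mem_drop hx))
      refine ⟨(l.take m).prod :: l', by simp [h1], ?_, ?_⟩
      · rw [List.prod_cons, h2, List.prod_take_mul_prod_drop]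
      · intro x hx
        rcases List.mem_cons.1 hx with rfl | hx
        · exact ⟨l.take m, ⟨by simp [hle], fun y hy => hT' y (List.mem_of_mem_take hy)⟩, rfl⟩
        · exact h3 x hx
  refine ⟨n * m, fun l hl hT' => ?_⟩
  obtain ⟨l', h4, h5, h6⟩ := h3 n l hl hT'
  rw [← h5]
  exact hn l' h4 h6

theorem LN_bot (S : NonUnitalSubalgebra F E) : LN S ⊥ := by
  refine ⟨fun x hx => ?_, fun s hs x hx => ?_, fun T hT hTs => ⟨1, fun l hl hx => ?_⟩⟩
  · rw [(Submodule.mem_bot F).1 hx]; exact S.zero_mem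
  · rw [(Submodule.mem_bot F).1 hx]; simp
  · obtain ⟨x, rfl⟩ := List.length_eq_one_iff.1 hl
    simpa using hTs (hx x (by simp))

theorem exists_LN {S : NonUnitalSubalgebra F E} {r : E} (h : r ∈ assRad S) :
    ∃ I, LN S I ∧ r ∈ I := by
  have h1 : r ∈ sSup {I | LN S I} := (sSup_le_sSup (fun I hI => LN_of hI) : assRad S ≤ _) h
  exact (Submodule.mem_sSup_of_directed ⟨⊥, LN_bot S⟩
    (fun I hI J hJ => ⟨I ⊔ J, LN_sup hI hJ, le_sup_left, le_sup_right⟩)).1 h1

end Pool.Agent.H.MP_2c0ed3_al
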