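import Pool.Agent.H.MP_2c0ed3_al.Tens

set_option maxHeartbeats 400000

namespace Pool.Agent.H.MP_2c0ed3_al

open Pool.Agent.H13.Golod
open scoped Nat

structure Dat (F M U : Type) [Field F] [AddCommGroup M] [Module F M] [AddCommGroup U]
    [Module F U] where
  L : T F →ₐ[F] Module.End F M
  e : M
  Z : ℕ → Submodule F M
  mono : Monotone Z
  Z0 : Z 0 = ⊥
  e1 : e ∈ Z 1
  Z1 : ∀ m ∈ Z 1, ∃ c : F, m = c • e
  hx : ∀ j k, ∀ m ∈ Z k, L (FreeAlgebra.ι F j) m ∈ Z (k + 1)
  hu : ∀ u, ∃ d, ∀ k, ∀ m ∈ Z k, L u m ∈ Z (k + d)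
  ψ : ℕ → M →ₗ[F] F
  w : ℕ → List (Fin 3)
  hw : ∀ k, (w k).length = k
  hψ0 : ∀ k, ∀ m ∈ Z k, ψ k m = 0
  hψ1 : ∀ k, ψ k (((w k).map fun j => L (FreeAlgebra.ι F j)).prod e) = 1
  lam : ℕ → (Module.End F M →ₐ[F] Module.End F U)
  comm : ∀ i j, i ≠ j → ∀ X Y, Commute (lam i X) (lam j Y)

def Act (t : ℕ) : Finset ℕ := (Finset.range t).filter fun i => ¬ (i + 2)! ∣ t ∧ (i + 2)! < t
def Res (t : ℕ) : Finset ℕ := (Finset.range t).filter fun i => (i + 2)! ∣ t ∧ (i + 2)! < t

theorem mem_Act {i t : ℕ} : i ∈ Act t ↔ ¬ (i + 2)! ∣ t ∧ (i + 2)! < t := by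
  have := Nat.self_le_factorial (i + 2)
  simp only [Act, Finset.mem_filter, Finset.mem_range]
  exact ⟨fun h => h.2, fun h => ⟨by omega, h⟩⟩

theorem mem_Res {i t : ℕ} : i ∈ Res t ↔ (i + 2)! ∣ t ∧ (i + 2)! < t := by
  have := Nat.self_le_factorial (i + 2)
  simp only [Res, Finset.mem_filter, Finset.mem_range]
  exact ⟨fun h => h.2, fun h => ⟨by omega, h⟩⟩

variable {F M U : Type} [Field F] [AddCommGroup M] [Module F M] [AddCommGroup U] [Module F U]

def sh : (ℕ → Module.End F U) →ₗ[F] Module.End F (ℕ → U) where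
  toFun b :=
    { toFun := fun fi t => Nat.rec 0 (fun t _ => b t (fi t)) t
      map_add' := fun fi fi' => funext fun t => by cases t <;> simp
      map_smul' := fun c fi => funext fun t => by cases t <;> simp }
  map_add' b b' := LinearMap.ext fun fi => funext fun t => by cases t <;> simp
  map_smul' c b := LinearMap.ext fun fi => funext fun t => by cases t <;> simp

theorem sh_zero (b : ℕ → Module.End F U) (fi : ℕ → U) : sh b fi 0 = 0 := rfl
theorem sh_succ (b : ℕ → Module.End F U) (fi : ℕ → U) (t : ℕ) : sh b fi (t + 1) = b t (fi t) := rfl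

namespace Dat

variable (D : Dat F M U)

def E (i k : ℕ) : Submodule F U where
  carrier := {v | ∀ X : Module.End F M, (∀ m ∈ D.Z k, X m = 0) → D.lam i X v = 0}
  add_mem' := fun ha hb X hX => by rw [map_add, ha X hX, hb X hX, add_zero]
  zero_mem' := fun X _ => map_zero _
  smul_mem' := fun c v hv X hX => by rw [map_smul, hv X hX, smul_zero]

def C (i : ℕ) (b : Module.End F U) : Prop := ∀ X, Commute (D.lam i X) b

def π (i : ℕ) : Module.End F M := (D.ψ (i + 1)).smulRight D.e

def W (l : List (Fin 3)) : Module.End F M := (l.map fun j => D.L (FreeAlgebra.ι F j)).prod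

noncomputable def rho (t : ℕ) (y : T F) : Module.End F U := ∑ i ∈ Act t, D.lam i (D.L y)

noncomputable def RR (s : Finset ℕ) : Module.End F U :=
  s.noncommProd (fun i => D.lam i (D.π i)) (fun i _ j _ h => D.comm i j h _ _)

noncomputable def rhoV : T F →ₗ[F] Module.End F (ℕ → U) where
  toFun y :=
    { toFun := fun fi t => D.rho t y (fi t)
      map_add' := fun fi fi' => funext fun t => by simp
      map_smul' := fun c fi => funext fun t => by simp }
  map_add' y y' := LinearMap.ext fun fi => funext fun t => by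
    simp [rho, Finset.sum_add_distrib]
  map_smul' c y := LinearMap.ext fun fi => funext fun t => by
    simp [rho, Finset.smul_sum]

theorem rhoV_apply (y : T F) (fi : ℕ → U) (t : ℕ) : D.rhoV y fi t = D.rho t y (fi t) := rfl

noncomputable def aa : ℕ → Module.End F U := fun t => D.RR (Res (t + 1))

variable {D}

theorem E_mono {i k k' : ℕ} (h : k ≤ k') {v : U} (hv : v ∈ D.E i k) : v ∈ D.E i k' :=
  fun X hX => hv X fun m hm => hX m (D.mono h hm)

theorem C_E {i k : ℕ} {b : Module.End F U} (hb : D.C i b) {v : U} (hv : v ∈ D.E i k) :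
    b v ∈ D.E i k := fun X hX => by
  rw [← Module.End.mul_apply, (hb X).eq, Module.End.mul_apply, hv X hX, map_zero]

theorem lam_E {i k k' : ℕ} {Y : Module.End F M} (hY : ∀ m ∈ D.Z k, Y m ∈ D.Z k') {v : U}
    (hv : v ∈ D.E i k) : D.lam i Y v ∈ D.E i k' := fun X hX => by
  rw [← Module.End.mul_apply, ← map_mul]
  exact hv _ fun m hm => hX _ (hY m hm)

theorem pi_E (i : ℕ) (v : U) : D.lam i (D.π i) v ∈ D.E i 1 := fun X hX => by
  have : X * D.π i = 0 := LinearMap.ext fun m => by simp [π, hX _ D.e1]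
  rw [← Module.End.mul_apply, ← map_mul, this, map_zero]; rfl

theorem pi_kill {i : ℕ} {v : U} (hv : v ∈ D.E i (i + 1)) : D.lam i (D.π i) v = 0 :=
  hv _ fun m hm => by simp [π, D.hψ0 _ m hm]

theorem pi_w {i : ℕ} {v : U} (hv : v ∈ D.E i 1) :
    D.lam i (D.π i) (D.lam i (D.W (D.w (i + 1))) v) = v := by
  have := hv (D.π i * D.W (D.w (i + 1)) - 1) fun m hm => by
    obtain ⟨c, rfl⟩ := D.Z1 m hm
    have h := D.hψ1 (i + 1)
    simp only [map_smul, LinearMap.sub_apply, Module.End.mul_apply, π, W,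
      LinearMap.smulRight_apply, h]
    simp
  rwa [map_sub, map_one, map_mul, LinearMap.sub_apply, sub_eq_zero] at this

theorem W_Z (l : List (Fin 3)) : ∀ m ∈ D.Z 1, D.W l m ∈ D.Z (l.length + 1) := by
  induction l with
  | nil => intro m hm; simpa [W] using hm
  | cons j l ih => intro m hm; exact D.hx j _ _ (ih m hm)

theorem rho_C {i t : ℕ} (h : i ∉ Act t) (y : T F) : D.C i (D.rho t y) := fun X =>
  Commute.sum_right _ _ _ fun j hj => D.comm i j (fun e => h (e ▸ hj)) _ _

theorem rho_split {i t : ℕ} (h : i ∈ Act t) (y : T F) :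
    ∃ c, D.C i c ∧ D.rho t y = D.lam i (D.L y) + c :=
  ⟨∑ j ∈ (Act t).erase i, D.lam j (D.L y), fun X =>
    Commute.sum_right _ _ _ fun j hj => D.comm i j (Finset.ne_of_mem_erase hj).symm _ _,
    (Finset.add_sum_erase _ (fun j => D.lam j (D.L y)) h).symm⟩

theorem rho_E {y : T F} {d : ℕ} (hy : ∀ k, ∀ m ∈ D.Z k, D.L y m ∈ D.Z (k + d)) {i k : ℕ} (t : ℕ)
    {v : U} (hv : v ∈ D.E i k) : D.rho t y v ∈ D.E i (k + d) := by
  by_cases h : i ∈ Act t
  · obtain ⟨c, hc, e⟩ := rho_split (D := D) h y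
    rw [e, LinearMap.add_apply]
    exact Submodule.add_mem _ (lam_E (hy k) hv) (E_mono (by omega) (C_E hc hv))
  · exact E_mono (by omega) (C_E (rho_C h y) hv)

theorem RR_C {i : ℕ} {s : Finset ℕ} (h : i ∉ s) : D.C i (D.RR s) := fun X =>
  Finset.noncommProd_commute _ _ _ _ fun j hj => D.comm i j (fun e => h (e ▸ hj)) _ _

theorem RR_erase {i : ℕ} {s : Finset ℕ} (h : i ∈ s) :
    D.RR s = D.lam i (D.π i) * D.RR (s.erase i) :=
  (Finset.mul_noncommProd_erase s h _ _).symm

theorem rho_lie (t : ℕ) (y y' : T F) :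
    D.rho t (y * y' - y' * y) = D.rho t y * D.rho t y' - D.rho t y' * D.rho t y := by
  simp only [rho, Finset.sum_mul_sum]
  rw [Finset.sum_comm (f := fun i j => D.lam i (D.L y') * D.lam j (D.L y)), ← Finset.sum_sub_distrib]
  refine Finset.sum_congr rfl fun i hi => ?_
  rw [← Finset.sum_sub_distrib, Finset.sum_eq_single_of_mem i hi]
  · simp
  · intro j _ hj
    rw [(D.comm i j hj.symm _ _).eq, sub_self]

theorem rhoV_lie (y y' : T F) :
    D.rhoV (y * y' - y' * y) = D.rhoV y * D.rhoV y' - D.rhoV y' * D.rhoV y :=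
  LinearMap.ext fun fi => funext fun t => by
    rw [rhoV_apply, rho_lie]; rfl

theorem rhoV_nil (p : ℕ) [Fact p.Prime] [CharP F p] [Nontrivial U] {y : T F}
    (hy : IsNilpotent (D.L y)) : IsNilpotent (D.rhoV y) := by
  obtain ⟨n, hn⟩ := hy
  haveI : CharP (Module.End F U) p :=
    charP_of_injective_algebraMap (algebraMap F (Module.End F U)).injective p
  have h1 : D.L y ^ (p ^ n) = 0 :=
    pow_eq_zero_of_le (Nat.lt_pow_self (Fact.out : p.Prime).one_lt).le hn
  have h2 : ∀ s : Finset ℕ, (∑ i ∈ s, D.lam i (D.L y)) ^ (p ^ n) = 0 := by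
    intro s
    induction s using Finset.induction_on with
    | empty => simp [(Fact.out : p.Prime).ne_zero]
    | insert i s hi ih =>
      rw [Finset.sum_insert hi, add_pow_char_pow_of_commute p n
        (Commute.sum_right _ _ _ fun j hj => D.comm i j (fun e => hi (e ▸ hj)) _ _), ih,
        ← map_pow, h1, map_zero, add_zero]
  have h3 : ∀ (k : ℕ) (fi : ℕ → U) (t : ℕ), (D.rhoV y ^ k) fi t = (D.rho t y ^ k) (fi t) := by
    intro k fi t
    induction k with
    | zero => rfl
    | succ k ih => rw [pow_succ', pow_succ', Module.End.mul_apply, rhoV_apply, ih]; rfl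
  exact ⟨p ^ n, LinearMap.ext fun fi => funext fun t => by rw [h3, rho, h2]; rfl⟩

variable (D)

def K (d : ℕ) : Submodule F (ℕ → Module.End F U) where
  carrier := {b | ∀ i t, (i ∉ Res (t + 1) → ∀ k, ∀ v ∈ D.E i k, b t v ∈ D.E i (k + d)) ∧
    (i ∈ Act t → i ∈ Act (t + 1) → D.C i (b t)) ∧
    (i ∈ Res (t + 1) → (∀ v, b t v ∈ D.E i 1) ∧ ∀ k, ∀ v ∈ D.E i k, k + d ≤ i + 1 → b t v = 0)}
  add_mem' := fun {b b'} hb hb' i t =>
    ⟨fun h k v hv => Submodule.add_mem _ ((hb i t).1 h k v hv) ((hb' i t).1 h k v hv),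
      fun h h' X => ((hb i t).2.1 h h' X).add_right ((hb' i t).2.1 h h' X),
      fun h => ⟨fun v => Submodule.add_mem _ (((hb i t).2.2 h).1 v) (((hb' i t).2.2 h).1 v),
        fun k v hv hk => by
          rw [Pi.add_apply, LinearMap.add_apply, ((hb i t).2.2 h).2 k v hv hk,
            ((hb' i t).2.2 h).2 k v hv hk, add_zero]⟩⟩
  zero_mem' := fun i t => ⟨fun _ _ _ _ => Submodule.zero_mem _, fun _ _ _ => Commute.zero_right _,
    fun _ => ⟨fun _ => Submodule.zero_mem _, fun _ _ _ _ => rfl⟩⟩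
  smul_mem' := fun c b hb i t =>
    ⟨fun h k v hv => Submodule.smul_mem _ c ((hb i t).1 h k v hv),
      fun h h' X => ((hb i t).2.1 h h' X).smul_right c,
      fun h => ⟨fun v => Submodule.smul_mem _ c (((hb i t).2.2 h).1 v),
        fun k v hv hk => by
          rw [Pi.smul_apply, LinearMap.smul_apply, ((hb i t).2.2 h).2 k v hv hk, smul_zero]⟩⟩

theorem K_mono : Monotone D.K := fun d d' hd b hb i t =>
  ⟨fun h k v hv => E_mono (by omega) ((hb i t).1 h k v hv), (hb i t).2.1,
    fun h => ⟨((hb i t).2.2 h).1, fun k v hv hk => ((hb i t).2.2 h).2 k v hv (by omega)⟩⟩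

theorem aa_mem : D.aa ∈ D.K 0 := fun i t =>
  ⟨fun h k v hv => C_E (RR_C h) hv,
    fun _ h' => RR_C fun h => (mem_Act.1 h').1 (mem_Res.1 h).1,
    fun h => ⟨fun v => by rw [aa, RR_erase h]; exact pi_E i _, fun k v hv hk => by
      rw [aa, RR_erase h]
      exact pi_kill (E_mono hk (C_E (RR_C (Finset.notMem_erase i _)) hv))⟩⟩

theorem K_ad (y : T F) : ∃ d', ∀ d, ∀ b ∈ D.K d, ∃ b' ∈ D.K (d + d'),
    D.rhoV y * sh b - sh b * D.rhoV y = sh b' := by
  obtain ⟨d', hd'⟩ := D.hu y
  refine ⟨d', fun d b hb => ⟨fun t => D.rho (t + 1) y * b t - b t * D.rho t y, fun i t =>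
    ⟨fun h k v hv => ?_, fun h h' X => ?_, fun h => ⟨fun v => ?_, fun k v hv hk => ?_⟩⟩, ?_⟩⟩
  · exact Submodule.sub_mem _ (E_mono (by omega) (rho_E hd' (t + 1) ((hb i t).1 h k v hv)))
      (E_mono (by omega) ((hb i t).1 h _ _ (rho_E hd' t hv)))
  · obtain ⟨c, hc, e⟩ := rho_split (D := D) h y
    obtain ⟨c', hc', e'⟩ := rho_split (D := D) h' y
    have hbc := (hb i t).2.1 h h'
    have e2 : D.rho (t + 1) y * b t - b t * D.rho t y = c' * b t - b t * c := by
      rw [e, e', add_mul, mul_add, (hbc _).eq]; abel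
    show Commute _ (D.rho (t + 1) y * b t - b t * D.rho t y)
    rw [e2]
    exact ((hc' X).mul_right (hbc X)).sub_right ((hbc X).mul_right (hc X))
  · exact Submodule.sub_mem _
      (C_E (rho_C (fun h' => (mem_Act.1 h').1 (mem_Res.1 h).1) y) (((hb i t).2.2 h).1 v))
      (((hb i t).2.2 h).1 _)
  · show D.rho (t + 1) y (b t v) - b t (D.rho t y v) = 0
    rw [((hb i t).2.2 h).2 k v hv (by omega), ((hb i t).2.2 h).2 _ _ (rho_E hd' t hv) (by omega),
      map_zero, sub_zero]
  · refine LinearMap.ext fun fi => funext fun t => ?_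
    cases t with
    | zero =>
      show D.rho 0 y 0 - 0 = 0
      simp
    | succ t => rfl

theorem K_nil (d : ℕ) (l : List (ℕ → Module.End F U)) (hl : l.length = 3 * (2 * d + 2)!)
    (hK : ∀ b ∈ l, b ∈ D.K d) : (l.map sh).prod = 0 := by
  set i := 2 * d with hi
  set N := (i + 2)! with hN
  have hN2 : 2 ≤ N := le_trans (by omega) (Nat.self_le_factorial (i + 2))
  have h0 : ∀ l : List (ℕ → Module.End F U), ∀ fi τ, τ < l.length → (l.map sh).prod fi τ = 0 := by
    intro l fi
    induction l with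
    | nil => intro τ h; simp at h
    | cons b l ih =>
      intro τ h
      cases τ with
      | zero => rfl
      | succ τ =>
        rw [List.map_cons, List.prod_cons, Module.End.mul_apply, sh_succ,
          ih τ (by simpa using h), map_zero]
  have h1 : ∀ (fi : ℕ → U) (t s : ℕ), N ∣ s → t < s → N < s →
      ∀ l : List (ℕ → Module.End F U), (∀ b ∈ l, b ∈ D.K d) →
      (t + l.length = s → (l.map sh).prod fi (t + l.length) ∈ D.E i 1) ∧
      (s < t + l.length → t + l.length < s + N →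
        (l.map sh).prod fi (t + l.length) ∈ D.E i (1 + d)) ∧
      (s + N ≤ t + l.length → (l.map sh).prod fi (t + l.length) = 0) := by
    intro fi t s hs hts hNs l
    have hnd : ∀ τ, s < τ → τ < s + N → ¬ N ∣ τ := by
      intro τ h1 h2 h3
      have := Nat.le_of_dvd (by omega) (Nat.dvd_sub h3 hs)
      omega
    induction l with
    | nil => intro _; simp only [List.length_nil]; refine ⟨?_, ?_, ?_⟩ <;> intros <;> omega
    | cons b l ih =>
      intro hb
      obtain ⟨i1, i2, i3⟩ := ih fun b' h => hb b' (List.mem_cons_of_mem _ h)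
      have hbK := hb b List.mem_cons_self i (t + l.length)
      rw [List.map_cons, List.prod_cons, Module.End.mul_apply, List.length_cons, ← add_assoc,
        sh_succ]
      refine ⟨fun h => ?_, fun h h' => ?_, fun h => ?_⟩
      · exact (hbK.2.2 (mem_Res.2 ⟨h ▸ hs, by omega⟩)).1 _
      · by_cases h2 : t + l.length = s
        · exact hbK.1 (fun h3 => hnd _ h h' (mem_Res.1 h3).1) _ _ (i1 h2)
        · exact C_E (hbK.2.1 (mem_Act.2 ⟨hnd _ (by omega) (by omega), by omega⟩)
            (mem_Act.2 ⟨hnd _ h h', by omega⟩)) (i2 (by omega) (by omega))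
      · by_cases h2 : t + l.length + 1 = s + N
        · exact (hbK.2.2 (mem_Res.2 ⟨h2 ▸ (dvd_add hs dvd_rfl), by omega⟩)).2 _ _
            (i2 (by omega) (by omega)) (by omega)
        · rw [i3 (by omega), map_zero]
  refine LinearMap.ext fun fi => funext fun τ => ?_
  by_cases hτ : τ < l.length
  · exact h0 l fi τ hτ
  · obtain ⟨t, rfl⟩ : ∃ t, τ = t + l.length := ⟨τ - l.length, by omega⟩
    have h2 := Nat.div_add_mod t N
    have h3 := Nat.mod_lt t (show N > 0 by omega)
    have h4 : N * (t / N + 2) = N * (t / N) + 2 * N := by ring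
    exact (h1 fi t (N * (t / N + 2)) (dvd_mul_right _ _) (by omega) (by omega) l hK).2.2 (by omega)

noncomputable def gg (c : Fin 3) : Module.End F (ℕ → U) := sh D.aa * D.rhoV (FreeAlgebra.ι F c)

theorem block (d : ℕ) : ∀ s, (d + 1)! ∣ s → (d + 1)! ≤ s → ∃ l : List (Fin 3),
    l.length + 1 = (d + 1)! ∧ ∀ fi : ℕ → U, (∀ i < d, fi s ∈ D.E i 1) →
      (l.map D.gg).prod (sh D.aa fi) (s + (d + 1)!) =
        D.RR ((Res (s + (d + 1)!)).filter fun i => d ≤ i) (fi s) := by
  induction d with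
  | zero =>
    intro s _ _
    refine ⟨[], rfl, fun fi _ => ?_⟩
    rw [Finset.filter_true_of_mem fun i _ => Nat.zero_le i]
    rfl
  | succ d ih =>
    intro s hs hs'
    set N := (d + 1)! with hN
    have hN1 : 1 ≤ N := Nat.factorial_pos _
    have hfac : (d + 1 + 1)! = (d + 2) * N := Nat.factorial_succ (d + 1)
    have hNs : N ∣ s := Dvd.dvd.trans (by rw [hfac]; exact dvd_mul_left _ _) hs
    have hnd : ∀ k, 1 ≤ k → k ≤ d + 1 → ¬ (d + 2)! ∣ s + k * N := by
      intro k h1 h2 h3
      have h4 := (Nat.dvd_add_right hs).1 h3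
      rw [hfac] at h4
      have := Nat.le_of_dvd (by omega) (Nat.dvd_of_mul_dvd_mul_right hN1 h4)
      omega
    have key : ∀ w : List (Fin 3), w.length ≤ d + 1 → ∃ l : List (Fin 3),
        l.length + 1 = (w.length + 1) * N ∧ ∀ fi : ℕ → U, (∀ i < d + 1, fi s ∈ D.E i 1) →
        ∃ v, (∀ i < d, v ∈ D.E i 1) ∧ v - D.lam d (D.W w) (fi s) ∈ D.E d w.length ∧
          (l.map D.gg).prod (sh D.aa fi) (s + (w.length + 1) * N) =
            D.RR ((Res (s + (w.length + 1) * N)).filter fun i => d ≤ i) v := by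
      intro w
      induction w with
      | nil =>
        intro _
        obtain ⟨l, h1, h2⟩ := ih s hNs (by rw [hfac] at hs'; nlinarith)
        refine ⟨l, by simpa using h1, fun fi hfi => ⟨fi s, fun i hi => hfi i (by omega), ?_, ?_⟩⟩
        · simp [W]
        · simpa using h2 fi fun i hi => hfi i (by omega)
      | cons c w ihw =>
        intro hw
        rw [List.length_cons] at hw ⊢
        obtain ⟨l, h1, h2⟩ := ihw (by omega)
        obtain ⟨l', h1', h2'⟩ := ih (s + (w.length + 1) * N) (dvd_add hNs (dvd_mul_left _ _))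
          (by nlinarith)
        refine ⟨l' ++ c :: l, by simp only [List.length_append, List.length_cons]; nlinarith,
          fun fi hfi => ?_⟩
        obtain ⟨v, hv1, hv2, hv3⟩ := h2 fi hfi
        have hnd' := hnd (w.length + 1) (by omega) hw
        have hemp : (Res (s + (w.length + 1) * N)).filter (fun i => d ≤ i) = ∅ := by
          refine Finset.filter_eq_empty_iff.2 fun i hi hdi => hnd' ?_
          exact Dvd.dvd.trans (Nat.factorial_dvd_factorial (by omega)) (mem_Res.1 hi).1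
        rw [hemp] at hv3
        have hv4 : (l.map D.gg).prod (sh D.aa fi) (s + (w.length + 1) * N) = v := hv3
        have hact : d ∈ Act (s + (w.length + 1) * N) := mem_Act.2 ⟨hnd', by
          have : (d + 2)! ≤ s := hs'
          nlinarith⟩
        have hlow : ∀ i < d, D.rho (s + (w.length + 1) * N) (FreeAlgebra.ι F c) v ∈ D.E i 1 :=
          fun i hi => C_E (rho_C (fun h => (mem_Act.1 h).1 (Dvd.dvd.trans
            (Nat.factorial_dvd_factorial (by omega)) (dvd_add hNs (dvd_mul_left _ _)))) _) (hv1 i hi)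
        refine ⟨D.rho (s + (w.length + 1) * N) (FreeAlgebra.ι F c) v, hlow, ?_, ?_⟩
        · obtain ⟨Y, hY, e⟩ := rho_split (D := D) hact (FreeAlgebra.ι F c)
          have e2 : D.rho (s + (w.length + 1) * N) (FreeAlgebra.ι F c) v -
              D.lam d (D.W (c :: w)) (fi s) =
              D.lam d (D.L (FreeAlgebra.ι F c)) (v - D.lam d (D.W w) (fi s)) +
                Y (v - D.lam d (D.W w) (fi s)) + Y (D.lam d (D.W w) (fi s)) := by
            rw [e]
            simp only [W, List.map_cons, List.prod_cons, map_mul, map_sub, LinearMap.add_apply,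
              Module.End.mul_apply]
            abel
          rw [e2]
          exact Submodule.add_mem _ (Submodule.add_mem _ (lam_E (D.hx c _) hv2)
            (E_mono (by omega) (C_E hY hv2))) (C_E hY (lam_E (W_Z w) (hfi d (by omega))))
        · have h3 := h2' (D.rhoV (FreeAlgebra.ι F c) ((l.map D.gg).prod (sh D.aa fi)))
            (by rw [rhoV_apply, hv4]; exact hlow)
          rw [rhoV_apply, hv4] at h3
          have e3 : s + (w.length + 1 + 1) * N = s + (w.length + 1) * N + N := by ring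
          rw [e3, ← h3]
          simp only [List.map_append, List.map_cons, List.prod_append, List.prod_cons,
            Module.End.mul_apply, gg]
    obtain ⟨l, h1, h2⟩ := key (D.w (d + 1)) (D.hw _).le
    rw [D.hw] at h1 h2
    refine ⟨l, by rw [h1, hfac], fun fi hfi => ?_⟩
    obtain ⟨v, -, hv2, hv3⟩ := h2 fi hfi
    rw [hfac, hv3]
    have hres : d ∈ (Res (s + (d + 1 + 1) * N)).filter (fun i => d ≤ i) := by
      refine Finset.mem_filter.2 ⟨mem_Res.2 ⟨dvd_add hs (by rw [hfac]), ?_⟩, le_rfl⟩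
      have : (d + 2)! ≤ s := hs'
      nlinarith
    have hset : ((Res (s + (d + 1 + 1) * N)).filter (fun i => d ≤ i)).erase d =
        (Res (s + (d + 2) * N)).filter (fun i => d + 1 ≤ i) := by
      ext i
      simp only [Finset.mem_erase, Finset.mem_filter]
      constructor
      · rintro ⟨h1, h2, h3⟩; exact ⟨h2, by omega⟩
      · rintro ⟨h1, h2⟩; exact ⟨by omega, h1, by omega⟩
    rw [RR_erase hres, (RR_C (Finset.notMem_erase d _) _).eq, hset, Module.End.mul_apply]
    congr 1
    have := pi_kill hv2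
    rw [map_sub, sub_eq_zero, pi_w (hfi d (by omega))] at this
    exact this

theorem nonvanish (u0 : U) (h0 : u0 ≠ 0) (hu : ∀ i X, X D.e = 0 → D.lam i X u0 = 0) (n : ℕ) :
    ∃ (l : List (Fin 3)) (fi : ℕ → U), n ≤ l.length ∧ (l.map D.gg).prod fi ≠ 0 := by
  obtain ⟨l, h1, h2⟩ := D.block n _ dvd_rfl le_rfl
  have := Nat.self_le_factorial (n + 1)
  refine ⟨l, sh D.aa fun _ => u0, by omega, fun h => h0 ?_⟩
  have h3 := h2 (fun _ => u0) fun i _ X hX => hu i X (hX _ D.e1)
  have hemp : (Res ((n + 1)! + (n + 1)!)).filter (fun i => n ≤ i) = ∅ := by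
    refine Finset.filter_eq_empty_iff.2 fun i hi hdi => ?_
    have h4 := (mem_Res.1 hi).2
    have h5 : (n + 2)! ≤ (i + 2)! := Nat.factorial_le (by omega)
    have h6 : (n + 2)! = (n + 2) * (n + 1)! := Nat.factorial_succ (n + 1)
    nlinarith
  rw [h, hemp] at h3
  exact h3.symm

end Dat

end Pool.Agent.H.MP_2c0ed3_al
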