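import Pool.Agent.H.MP_2c0ed3_al.Sched
import Pool.Agent.H.MP_2c0ed3_al.Abs

set_option maxHeartbeats 400000

namespace Pool.Agent.H.MP_2c0ed3_al

open Pool.Agent.H13.Golod

variable {F V : Type} [Field F] [AddCommGroup V] [Module F V]

def emb : Module.End F V →ₗ[F] Module.End F (V × F) where
  toFun b := b.prodMap 0
  map_add' b b' := LinearMap.ext fun x => by simp
  map_smul' c b := LinearMap.ext fun x => by simp

def hat : V →ₗ[F] Module.End F (V × F) where
  toFun v := (LinearMap.snd F V F).smulRight (v, 0)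
  map_add' b b' := LinearMap.ext fun x => by simp
  map_smul' c b := LinearMap.ext fun x => by simp [smul_comm c]

theorem emb_apply (b : Module.End F V) (x : V × F) : emb b x = (b x.1, 0) := rfl
theorem hat_apply (v : V) (x : V × F) : (hat v : Module.End F (V × F)) x = (x.2 • v, 0) := by
  simp [hat]

theorem emb_mul (b b' : Module.End F V) : emb (b * b') = emb b * emb b' :=
  LinearMap.ext fun _ => rfl
theorem emb_hat (b : Module.End F V) (v : V) : emb b * hat v = hat (b v) :=
  LinearMap.ext fun x => by simp [emb_apply, hat_apply]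
theorem hat_emb (b : Module.End F V) (v : V) : hat v * emb b = 0 :=
  LinearMap.ext fun x => by simp [emb_apply, hat_apply]

theorem prod_eh {ι : Type} (f : ι → Module.End F V) (g : ι → V) (l : List ι) (i : ι) (x : V × F) :
    ((l ++ [i]).map fun j => (emb (f j) + hat (g j) : Module.End F (V × F))).prod x =
      ((l.map f).prod (f i x.1 + x.2 • g i), 0) := by
  induction l with
  | nil => simp [emb_apply, hat_apply]
  | cons j l ih =>
    rw [List.cons_append, List.map_cons, List.prod_cons, Module.End.mul_apply, ih]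
    simp [emb_apply, hat_apply]

attribute [local instance 100] LieRing.ofAssociativeRing

theorem strong (F : Type) [Field F] [Countable F] (p : ℕ) [Fact p.Prime] [CharP F p] :
    ∃ (A : Type) (_ : LieRing A) (_ : LieAlgebra F A),
      (∀ x : A, IsNilpotent (rmul F A x)) ∧
        ∃ a : A, a ∈ lieRad F A ∧ rmul F A a ∉ assRad (multAlg F A) := by
  obtain ⟨M, _, _, L, e, hM, hc, hnil⟩ := golod (F := F)
  obtain ⟨Z, h1, h2, h3, h4, h5, h6, h7⟩ := exists_filt L e hM hc
  choose ψ w h8 h9 h10 using h7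
  have he : e ≠ 0 := by
    intro h
    have := h10 0
    rw [h, map_zero, map_zero] at this
    exact zero_ne_one this
  obtain ⟨U, _, _, lam, u0, hu0, hcomm, hu⟩ := exists_tens (F := F) e he
  let D : Dat F M U := ⟨L, e, Z, h1, h2, h3, h4, h5, h6, ψ, w, h8, h9, h10, lam, hcomm⟩
  haveI : Nontrivial U := ⟨⟨u0, 0, hu0⟩⟩
  let G : LieSubalgebra F (Module.End F ((ℕ → U) × F)) :=
    { (LinearMap.ker (eps F).toLinearMap).map (emb ∘ₗ D.rhoV) with
      lie_mem' := by
        rintro _ _ ⟨y, hy, rfl⟩ ⟨y', hy', rfl⟩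
        refine ⟨y * y' - y' * y, ?_, ?_⟩
        · show eps F _ = 0
          rw [map_sub, map_mul, map_mul, mul_comm, sub_self]
        · show emb (D.rhoV _) = emb (D.rhoV y) * emb (D.rhoV y') - emb (D.rhoV y') * emb (D.rhoV y)
          rw [Dat.rhoV_lie, map_sub, emb_mul, emb_mul] }
  let P : ℕ → Submodule F (Module.End F ((ℕ → U) × F)) := fun d =>
    (D.K d).map (emb ∘ₗ sh) ⊔ LinearMap.range hat
  have hP : ∀ d z, z ∈ P d ↔ ∃ b ∈ D.K d, ∃ v, z = emb (sh b) + hat v := by
    intro d z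
    rw [Submodule.mem_sup]
    constructor
    · rintro ⟨_, ⟨b, hb, rfl⟩, _, ⟨v, rfl⟩, rfl⟩
      exact ⟨b, hb, v, rfl⟩
    · rintro ⟨b, hb, v, rfl⟩
      exact ⟨_, ⟨b, hb, rfl⟩, _, ⟨v, rfl⟩, rfl⟩
  refine abs_main P (fun d d' h => sup_le_sup_right (Submodule.map_mono (D.K_mono h)) _) G
    (fun d => ⟨3 * (2 * d + 2).factorial + 1, fun l hl hm => ?_⟩) ?_ ?_ (emb (sh D.aa))
    ((hP 0 _).2 ⟨_, D.aa_mem, 0, by simp⟩) (fun j => emb (D.rhoV (FreeAlgebra.ι F j)))
    (fun j => ⟨_, eps_x j, rfl⟩) fun n => ?_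
  · have hex : ∀ z : Module.End F ((ℕ → U) × F), ∃ b v, z ∈ l → b ∈ D.K d ∧ z = emb (sh b) + hat v := by
      intro z
      by_cases hz : z ∈ l
      · obtain ⟨b, hb, v, e⟩ := (hP d z).1 (hm z hz)
        exact ⟨b, v, fun _ => ⟨hb, e⟩⟩
      · exact ⟨0, 0, fun h => absurd h hz⟩
    choose b v hbv using hex
    have e1 : l = l.map fun z => emb (sh (b z)) + hat (v z) := by
      conv_lhs => rw [← List.map_id l]
      exact List.map_congr_left fun z hz => (hbv z hz).2
    obtain ⟨l', i, rfl⟩ : ∃ l' i, l = l' ++ [i] := by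
      rcases List.eq_nil_or_concat' l with rfl | h
      · simp at hl
      · exact h
    rw [e1]
    refine LinearMap.ext fun x => ?_
    rw [prod_eh (fun z => sh (b z)) v]
    have := D.K_nil d (l'.map b) (by simpa using hl) (by
      intro b' hb'
      obtain ⟨z, hz, rfl⟩ := List.mem_map.1 hb'
      exact (hbv z (List.mem_append_left _ hz)).1)
    rw [List.map_map] at this
    have e2 : (l'.map fun z => sh (b z)).prod = 0 := this
    rw [e2]; rfl
  · rintro _ ⟨y, hy, rfl⟩
    obtain ⟨d', hd'⟩ := D.K_ad y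
    refine ⟨d', fun d z hz => ?_⟩
    obtain ⟨b, hb, v, rfl⟩ := (hP d z).1 hz
    obtain ⟨b', hb', e⟩ := hd' d b hb
    refine (hP _ _).2 ⟨b', hb', D.rhoV y v, ?_⟩
    show emb (D.rhoV y) * _ - _ * emb (D.rhoV y) = _
    rw [← e, map_sub, emb_mul, emb_mul, mul_add, add_mul, emb_hat, hat_emb]
    abel
  · rintro _ ⟨y, hy, rfl⟩
    obtain ⟨k, hk⟩ := Dat.rhoV_nil (D := D) p (hnil y hy)
    have : ∀ m, emb (D.rhoV y) ^ (m + 1) = emb (D.rhoV y ^ (m + 1)) := by
      intro m
      induction m with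
      | zero => simp
      | succ m ih => rw [pow_succ, ih, ← emb_mul, ← pow_succ]
    exact ⟨k + 1, by
      show emb (D.rhoV y) ^ (k + 1) = 0
      rw [this, pow_succ, hk, zero_mul, map_zero]⟩
  · obtain ⟨l, v, hl, hne⟩ := D.nonvanish u0 hu0 hu n
    refine ⟨l, hat v, hl, (hP 0 _).2 ⟨0, Submodule.zero_mem _, v, by simp⟩, fun h => hne ?_⟩
    have e : ∀ l : List (Fin 3), (l.map fun j => LieAlgebra.ad F _ (emb (sh D.aa)) *
        LieAlgebra.ad F _ (emb (D.rhoV (FreeAlgebra.ι F j)))).prod (hat v) =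
        hat ((l.map D.gg).prod v) := by
      intro l
      induction l with
      | nil => rfl
      | cons j l ih =>
        simp only [List.map_cons, List.prod_cons, Module.End.mul_apply, ih, LieAlgebra.ad_apply,
          Ring.lie_def, emb_hat, hat_emb, sub_zero, Dat.gg]
    rw [e] at h
    have h' := congrArg (fun f : Module.End F ((ℕ → U) × F) => (f (0, 1)).1) h
    simpa [hat_apply] using h'

end Pool.Agent.H.MP_2c0ed3_al
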