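import Mathlib
import Pool.Agent.Lib.helper13.Golod

set_option maxHeartbeats 400000

namespace Pool.Agent.H.MP_2c0ed3_al

open PiTensorProduct Pool.Agent.H13.Golod
open scoped TensorProduct

variable {F : Type} [Field F] {M : Type} [AddCommGroup M] [Module F M]

open Classical in
noncomputable def fpm (φ : M →ₗ[F] F) : MultilinearMap F (fun _ : ℕ => M) F :=
  MultilinearMap.mk' (fun m => if (Function.mulSupport fun i => φ (m i)).Finite then
      ∏ᶠ i, φ (m i) else 0)
    (h₁ := by
      intro m i x y
      have hs : ∀ z z' : M, (Function.mulSupport fun j => φ (Function.update m i z j)).Finite →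
          (Function.mulSupport fun j => φ (Function.update m i z' j)).Finite := by
        intro z z' h
        refine (h.insert i).subset fun j hj => ?_
        by_cases hji : j = i
        · exact Or.inl hji
        · right
          simpa [Function.update_of_ne hji] using hj
      by_cases h : (Function.mulSupport fun j => φ (Function.update m i x j)).Finite
      · have e : ∀ z : M, ∏ᶠ j, φ (Function.update m i z j) =
            φ z * ∏ᶠ (j) (_ : j ≠ i), φ (m j) := by
          intro z
          rw [← mul_finprod_cond_ne i (hs x z h), Function.update_self]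
          congr 1
          exact finprod_congr fun j => finprod_congr fun hj => by rw [Function.update_of_ne hj]
        rw [if_pos (hs x _ h), if_pos h, if_pos (hs x _ h), e, e, e, map_add, add_mul]
      · rw [if_neg (fun h' => h (hs _ _ h')), if_neg h, if_neg (fun h' => h (hs _ _ h')), add_zero])
    (h₂ := by
      intro m i c x
      have hs : ∀ z z' : M, (Function.mulSupport fun j => φ (Function.update m i z j)).Finite →
          (Function.mulSupport fun j => φ (Function.update m i z' j)).Finite := by
        intro z z' h
        refine (h.insert i).subset fun j hj => ?_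
        by_cases hji : j = i
        · exact Or.inl hji
        · right
          simpa [Function.update_of_ne hji] using hj
      by_cases h : (Function.mulSupport fun j => φ (Function.update m i x j)).Finite
      · have e : ∀ z : M, ∏ᶠ j, φ (Function.update m i z j) =
            φ z * ∏ᶠ (j) (_ : j ≠ i), φ (m j) := by
          intro z
          rw [← mul_finprod_cond_ne i (hs x z h), Function.update_self]
          congr 1
          exact finprod_congr fun j => finprod_congr fun hj => by rw [Function.update_of_ne hj]
        rw [if_pos (hs x _ h), if_pos h, e, e, map_smul, smul_eq_mul, smul_eq_mul, mul_assoc]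
      · rw [if_neg (fun h' => h (hs _ _ h')), if_neg h, smul_zero])

theorem exists_tens (e : M) (he : e ≠ 0) :
    ∃ (U : Type) (_ : AddCommGroup U) (_ : Module F U)
      (lam : ℕ → (Module.End F M →ₐ[F] Module.End F U)) (u0 : U), u0 ≠ 0 ∧
      (∀ i j, i ≠ j → ∀ X Y, Commute (lam i X) (lam j Y)) ∧ ∀ i X, X e = 0 → lam i X u0 = 0 := by
  classical
  let lam : ℕ → (Module.End F M →ₐ[F] Module.End F (⨂[F] _ : ℕ, M)) := fun i =>
    AlgHom.ofLinearMap
      { toFun := fun X => PiTensorProduct.map (Function.update (fun _ : ℕ => (1 : M →ₗ[F] M)) i X)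
        map_add' := fun X Y =>
          PiTensorProduct.map_update_add (fun _ : ℕ => (1 : M →ₗ[F] M)) i X Y
        map_smul' := fun c X =>
          PiTensorProduct.map_update_smul (fun _ : ℕ => (1 : M →ₗ[F] M)) i c X }
      (by
        show PiTensorProduct.map (Function.update (fun _ => (1 : M →ₗ[F] M)) i 1) = 1
        rw [Function.update_eq_self]
        exact PiTensorProduct.map_one)
      (by
        intro X Y
        show PiTensorProduct.map (Function.update (fun _ => (1 : M →ₗ[F] M)) i (X * Y)) =
          PiTensorProduct.map (Function.update (fun _ => (1 : M →ₗ[F] M)) i X) *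
          PiTensorProduct.map (Function.update (fun _ => (1 : M →ₗ[F] M)) i Y)
        rw [← PiTensorProduct.map_mul]
        congr 1
        funext j
        by_cases h : j = i
        · subst h; simp
        · simp [Function.update_of_ne h])
  have hl : ∀ i X, lam i X =
      PiTensorProduct.map (Function.update (fun _ => (1 : M →ₗ[F] M)) i X) := fun _ _ => rfl
  refine ⟨⨂[F] _ : ℕ, M, inferInstance, inferInstance, lam, PiTensorProduct.tprod F (fun _ => e), ?_, ?_, ?_⟩
  · obtain ⟨φ, hφ⟩ := Module.Projective.exists_dual_eq_one F he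
    intro h
    have h1 := congrArg (PiTensorProduct.lift (fpm φ)) h
    rw [lift.tprod, map_zero] at h1
    simp [fpm, hφ] at h1
  · intro i j hij X Y
    show lam i X * lam j Y = lam j Y * lam i X
    rw [hl, hl, ← PiTensorProduct.map_mul, ← PiTensorProduct.map_mul]
    congr 1
    funext k
    by_cases h : k = i
    · subst h; simp [Function.update_of_ne hij]
    · simp [Function.update_of_ne h]
  · intro i X hX
    rw [hl, map_tprod]
    exact (PiTensorProduct.tprod F).map_coord_zero i (by simpa using hX)

theorem exists_filt (L : T F →ₐ[F] Module.End F M) (e : M) (hM : ¬ Module.Finite F M)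
    (hc : ∀ m, ∃ u, L u e = m) :
    ∃ Z : ℕ → Submodule F M, Monotone Z ∧ Z 0 = ⊥ ∧ e ∈ Z 1 ∧ (∀ m ∈ Z 1, ∃ c : F, m = c • e) ∧
      (∀ j k, ∀ m ∈ Z k, L (FreeAlgebra.ι F j) m ∈ Z (k + 1)) ∧
      (∀ u, ∃ d, ∀ k, ∀ m ∈ Z k, L u m ∈ Z (k + d)) ∧
      ∀ k, ∃ (ψ : M →ₗ[F] F) (l : List (Fin 3)), l.length = k ∧ (∀ m ∈ Z k, ψ m = 0) ∧
        ψ ((l.map fun j => L (FreeAlgebra.ι F j)).prod e) = 1 := by
  let w : List (Fin 3) → M := fun l => (l.map fun j => L (FreeAlgebra.ι F j)).prod e
  let Z : ℕ → Submodule F M := fun k => Submodule.span F (w '' {l | l.length < k})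
  have hmono : Monotone Z := fun a b hab =>
    Submodule.span_mono (Set.image_mono fun l hl => lt_of_lt_of_le hl hab)
  have hx : ∀ j k, ∀ m ∈ Z k, L (FreeAlgebra.ι F j) m ∈ Z (k + 1) := by
    intro j k m hm
    have : Z k ≤ (Z (k + 1)).comap (L (FreeAlgebra.ι F j)) := by
      refine Submodule.span_le.2 ?_
      rintro _ ⟨l, hl, rfl⟩
      exact Submodule.subset_span ⟨j :: l, by simpa using hl, by simp [w]⟩
    exact this hm
  have he : e ∈ Z 1 := Submodule.subset_span ⟨[], by simp, by simp [w]⟩
  refine ⟨Z, hmono, by simp [Z], he, ?_, hx, ?_, ?_⟩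
  · intro m hm
    have : Z 1 ≤ Submodule.span F {e} := by
      refine Submodule.span_le.2 ?_
      rintro _ ⟨l, hl, rfl⟩
      have : l = [] := List.length_eq_zero_iff.1 (by simpa using hl)
      subst this
      exact Submodule.subset_span (by simp [w])
    obtain ⟨c, hc⟩ := Submodule.mem_span_singleton.1 (this hm)
    exact ⟨c, hc.symm⟩
  · intro u
    induction u using FreeAlgebra.induction with
    | grade0 r => exact ⟨0, fun k m hm => by
        rw [AlgHom.commutes, Module.algebraMap_end_apply]; exact (Z k).smul_mem r hm⟩
    | grade1 j => exact ⟨1, hx j⟩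
    | mul a b ha hb =>
      obtain ⟨d, hd⟩ := ha
      obtain ⟨d', hd'⟩ := hb
      exact ⟨d' + d, fun k m hm => by
        rw [map_mul, Module.End.mul_apply, ← add_assoc]; exact hd _ _ (hd' _ _ hm)⟩
    | add a b ha hb =>
      obtain ⟨d, hd⟩ := ha
      obtain ⟨d', hd'⟩ := hb
      exact ⟨d + d', fun k m hm => by
        rw [map_add, LinearMap.add_apply]
        exact Submodule.add_mem _ (hmono (by omega) (hd _ _ hm)) (hmono (by omega) (hd' _ _ hm))⟩
  · intro k
    have : ∃ l : List (Fin 3), l.length = k ∧ w l ∉ Z k := by
      by_contra hcon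
      push Not at hcon
      have h1 : Z (k + 1) ≤ Z k := by
        refine Submodule.span_le.2 ?_
        rintro _ ⟨l, hl, rfl⟩
        rcases Nat.lt_succ_iff_lt_or_eq.1 hl with h | h
        · exact Submodule.subset_span ⟨l, h, rfl⟩
        · exact hcon l h
      have h2 : ∀ u, ∀ m ∈ Z k, L u m ∈ Z k := by
        intro u
        induction u using FreeAlgebra.induction with
        | grade0 r =>
          intro m hm
          rw [AlgHom.commutes, Module.algebraMap_end_apply]; exact (Z k).smul_mem r hm
        | grade1 j => exact fun m hm => h1 (hx j k m hm)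
        | mul a b ha hb =>
          intro m hm
          rw [map_mul, Module.End.mul_apply]; exact ha _ (hb _ hm)
        | add a b ha hb =>
          intro m hm
          rw [map_add, LinearMap.add_apply]; exact Submodule.add_mem _ (ha _ hm) (hb _ hm)
      have h3 : Z k = ⊤ := eq_top_iff.2 fun m _ => by
        obtain ⟨u, rfl⟩ := hc m
        exact h2 u e (h1 (hmono (by omega) he))
      apply hM
      refine ⟨?_⟩
      rw [← h3]
      exact Submodule.fg_span ((List.finite_length_lt (Fin 3) k).image w)
    obtain ⟨l, hl, hw⟩ := this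
    obtain ⟨f, hf1, hf2⟩ := (Z k).exists_dual_map_eq_bot_of_notMem hw inferInstance
    refine ⟨(f (w l))⁻¹ • f, l, hl, fun m hm => ?_, ?_⟩
    · have : f m = 0 := by
        have : f m ∈ (Z k).map f := Submodule.mem_map_of_mem hm
        rwa [hf2, Submodule.mem_bot] at this
      simp [this]
    · show (f (w l))⁻¹ * f (w l) = 1
      exact inv_mul_cancel₀ hf1

end Pool.Agent.H.MP_2c0ed3_al
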