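import Pool.Agent.H.MP_2c0ed3_al.Lev

set_option maxHeartbeats 400000

namespace Pool.Agent.H.MP_2c0ed3_al

variable (F : Type) [Field F]

noncomputable def D : Module.End F (ℕ →₀ F) := Finsupp.lcomapDomain Nat.succ Nat.succ_injective

theorem D_pow (N : ℕ) (f : ℕ →₀ F) (n : ℕ) : ((D F ^ N) f) n = f (n + N) := by
  induction N generalizing n with
  | zero => simp
  | succ N ih =>
    rw [pow_succ', Module.End.mul_apply]
    show ((D F ^ N) f) (n + 1) = _
    rw [ih]; congr 1; omega

theorem D_nil (f : ℕ →₀ F) : ∃ N, ∀ M, N ≤ M → (D F ^ M) f = 0 := by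
  obtain ⟨N, hN⟩ := f.support.bddAbove
  refine ⟨N + 1, fun M hM => Finsupp.ext fun n => ?_⟩
  rw [D_pow]
  by_contra h
  have := hN (Finsupp.mem_support_iff.2 h)
  omega

def WA : Type := (ℕ →₀ F) × F

noncomputable instance : AddCommGroup (WA F) := inferInstanceAs (AddCommGroup ((ℕ →₀ F) × F))
noncomputable instance : Module F (WA F) := inferInstanceAs (Module F ((ℕ →₀ F) × F))

variable {F}

theorem WA.ext' {x y : WA F} (h1 : x.1 = y.1) (h2 : x.2 = y.2) : x = y := Prod.ext h1 h2
theorem WA.add1 (x y : WA F) : (x + y).1 = x.1 + y.1 := rfl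
theorem WA.add2 (x y : WA F) : (x + y).2 = x.2 + y.2 := rfl
theorem WA.neg1 (x : WA F) : (-x).1 = -x.1 := rfl
theorem WA.neg2 (x : WA F) : (-x).2 = -x.2 := rfl
theorem WA.smul1 (c : F) (x : WA F) : (c • x).1 = c • x.1 := rfl
theorem WA.smul2 (c : F) (x : WA F) : (c • x).2 = c * x.2 := rfl
theorem WA.zero1 : (0 : WA F).1 = 0 := rfl
theorem WA.zero2 : (0 : WA F).2 = 0 := rfl

noncomputable instance : Bracket (WA F) (WA F) :=
  ⟨fun x y => (x.2 • D F y.1 - y.2 • D F x.1, 0)⟩

theorem WA.br1 (x y : WA F) : ⁅x, y⁆.1 = x.2 • D F y.1 - y.2 • D F x.1 := rfl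
theorem WA.br2 (x y : WA F) : ⁅x, y⁆.2 = 0 := rfl

noncomputable instance : LieRing (WA F) where
  add_lie x y z := WA.ext' (by simp only [WA.br1, WA.add1, WA.add2, map_add]; module)
    (by simp only [WA.br2, WA.add2, add_zero])
  lie_add x y z := WA.ext' (by simp only [WA.br1, WA.add1, WA.add2, map_add]; module)
    (by simp only [WA.br2, WA.add2, add_zero])
  lie_self x := WA.ext' (by simp only [WA.br1, WA.zero1, sub_self]) rfl
  leibniz_lie x y z := WA.ext'
    (by simp only [WA.br1, WA.br2, WA.add1, map_sub, map_smul]; module)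
    (by simp only [WA.br2, WA.add2, add_zero])

noncomputable instance : LieAlgebra F (WA F) where
  lie_smul c x y := WA.ext' (by simp only [WA.br1, WA.smul1, WA.smul2, map_smul]; module)
    (by simp only [WA.br2, WA.smul2, mul_zero])

theorem WA_nil (T : Finset (WA F)) :
    LieRing.IsNilpotent (LieSubalgebra.lieSpan F (WA F) (T : Set (WA F))) := by
  choose N hN using D_nil F
  obtain ⟨K, hK⟩ := (T.image fun x => N x.1).bddAbove
  have hT : ∀ x ∈ T, (D F ^ (K + 1)) x.1 = 0 := fun x hx =>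
    hN _ _ (le_trans (hK (Finset.mem_coe.2 (Finset.mem_image_of_mem _ hx))) (Nat.le_succ K))
  have hc : ∀ (k : ℕ) (v : ℕ →₀ F), (D F ^ k) (D F v) = (D F ^ (k + 1)) v := fun k v => by
    rw [pow_succ]; rfl
  have hc' : ∀ (k : ℕ) (v : ℕ →₀ F), (D F ^ k) v = 0 → (D F ^ (k + 1)) v = 0 := fun k v h => by
    rw [pow_succ', Module.End.mul_apply, h, map_zero]
  let H : LieSubalgebra F (WA F) :=
    { carrier := {x | (D F ^ (K + 1)) x.1 = 0}
      add_mem' := fun {x y} hx hy => by
        simp only [Set.mem_setOf_eq, WA.add1, map_add] at *; rw [hx, hy, add_zero]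
      zero_mem' := by simp only [Set.mem_setOf_eq, WA.zero1, map_zero]
      smul_mem' := fun c x hx => by
        simp only [Set.mem_setOf_eq, WA.smul1, map_smul] at *; rw [hx, smul_zero]
      lie_mem' := fun {x y} hx hy => by
        simp only [Set.mem_setOf_eq, WA.br1, map_smul, map_sub, hc] at *
        rw [hc' _ _ hx, hc' _ _ hy]; simp }
  have hle : LieSubalgebra.lieSpan F (WA F) (T : Set (WA F)) ≤ H :=
    LieSubalgebra.lieSpan_le.2 hT
  set L := LieSubalgebra.lieSpan F (WA F) (T : Set (WA F))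
  have key : ∀ k, k ≤ K → ∀ y ∈ LieModule.lowerCentralSeries F L L (k + 1),
      (D F ^ (K - k)) (y : WA F).1 = 0 ∧ (y : WA F).2 = 0 := by
    intro k
    induction k with
    | zero =>
      intro _ y hy
      rw [LieModule.lowerCentralSeries_succ, LieModule.lowerCentralSeries_zero,
        ← LieSubmodule.mem_toSubmodule, LieSubmodule.lieIdeal_oper_eq_linear_span'] at hy
      induction hy using Submodule.span_induction with
      | mem y hy =>
        obtain ⟨x, -, z, -, rfl⟩ := hy
        refine ⟨?_, rfl⟩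
        show (D F ^ (K - 0)) (⁅(x : WA F), (z : WA F)⁆).1 = 0
        have h1 : (D F ^ (K + 1)) (x : WA F).1 = 0 := hle x.2
        have h2 : (D F ^ (K + 1)) (z : WA F).1 = 0 := hle z.2
        simp only [WA.br1, map_smul, map_sub, hc, Nat.sub_zero, h1, h2]
        simp
      | zero => exact ⟨map_zero _, rfl⟩
      | add x y _ _ hx hy =>
        refine ⟨?_, ?_⟩
        · show (D F ^ (K - 0)) ((x : WA F).1 + (y : WA F).1) = 0
          rw [map_add, hx.1, hy.1, add_zero]
        · show (x : WA F).2 + (y : WA F).2 = 0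
          rw [hx.2, hy.2, add_zero]
      | smul c x _ hx =>
        refine ⟨?_, ?_⟩
        · show (D F ^ (K - 0)) (c • (x : WA F).1) = 0
          rw [map_smul, hx.1, smul_zero]
        · show c * (x : WA F).2 = 0
          rw [hx.2, mul_zero]
    | succ k ih =>
      intro hk y hy
      rw [LieModule.lowerCentralSeries_succ,
        ← LieSubmodule.mem_toSubmodule, LieSubmodule.lieIdeal_oper_eq_linear_span'] at hy
      induction hy using Submodule.span_induction with
      | mem y hy =>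
        obtain ⟨x, -, z, hz, rfl⟩ := hy
        refine ⟨?_, rfl⟩
        show (D F ^ (K - (k + 1))) (⁅(x : WA F), (z : WA F)⁆).1 = 0
        obtain ⟨h1, h2⟩ := ih (by omega) z hz
        have e : K - (k + 1) + 1 = K - k := by omega
        simp only [WA.br1, map_smul, map_sub, hc, e, h1, h2]
        simp
      | zero => exact ⟨map_zero _, rfl⟩
      | add x y _ _ hx hy =>
        refine ⟨?_, ?_⟩
        · show (D F ^ (K - (k + 1))) ((x : WA F).1 + (y : WA F).1) = 0
          rw [map_add, hx.1, hy.1, add_zero]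
        · show (x : WA F).2 + (y : WA F).2 = 0
          rw [hx.2, hy.2, add_zero]
      | smul c x _ hx =>
        refine ⟨?_, ?_⟩
        · show (D F ^ (K - (k + 1))) (c • (x : WA F).1) = 0
          rw [map_smul, hx.1, smul_zero]
        · show c * (x : WA F).2 = 0
          rw [hx.2, mul_zero]
  refine (LieModule.isNilpotent_iff F L L).2 ⟨K + 1, eq_bot_iff.2 fun y hy => ?_⟩
  obtain ⟨h1, h2⟩ := key K le_rfl y hy
  rw [LieSubmodule.mem_bot]
  exact Subtype.ext (WA.ext' (by simpa using! h1) h2)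

theorem rmul_pow (x y : WA F) (n : ℕ) :
    ((rmul F (WA F) x ^ (n + 1)) y).2 = 0 ∧ ((rmul F (WA F) x ^ (n + 1)) y).1 =
      (-x.2) ^ n • (D F ^ n) (y.2 • D F x.1 - x.2 • D F y.1) := by
  have h : ∀ z : WA F, rmul F (WA F) x z = ⁅z, x⁆ := fun z => by simp [rmul]
  induction n with
  | zero => simp [h, WA.br1, WA.br2]
  | succ n ih =>
    rw [pow_succ', Module.End.mul_apply, h, WA.br1, WA.br2, ih.1, ih.2, pow_succ' (D F)]
    refine ⟨rfl, ?_⟩
    simp only [map_smul, Module.End.mul_apply]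
    module

theorem weak : (∀ x y : WA F, ∃ n : ℕ, 1 ≤ n ∧ (rmul F (WA F) x ^ n) y = 0) ∧
    ∃ a : WA F, a ∈ lieRad F (WA F) ∧ rmul F (WA F) a ∉ assRad (multAlg F (WA F)) := by
  refine ⟨fun x y => ?_, ((0 : ℕ →₀ F), (1 : F)), ?_, fun h => ?_⟩
  · obtain ⟨N, hN⟩ := D_nil F (y.2 • D F x.1 - x.2 • D F y.1)
    refine ⟨N + 1, by omega, WA.ext' ?_ (rmul_pow x y N).1⟩
    rw [(rmul_pow x y N).2, hN N le_rfl, smul_zero]; rfl
  · have : (⊤ : LieIdeal F (WA F)) ≤ lieRad F (WA F) := le_sSup fun T _ => WA_nil T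
    exact this (LieSubmodule.mem_top _)
  · obtain ⟨I, hI, hr⟩ := exists_LN h
    obtain ⟨n, hn⟩ := hI.2.2 {_} (Set.finite_singleton _) (Set.singleton_subset_iff.2 hr)
    have h1 := hn (List.replicate n _) List.length_replicate
      (fun x hx => List.eq_of_mem_replicate hx)
    rw [List.prod_replicate] at h1
    have h2 := (rmul_pow (F := F) ((0 : ℕ →₀ F), (1 : F)) (Finsupp.single (n + 1) (1 : F), (0 : F)) n).2
    rw [pow_succ, h1, zero_mul] at h2
    have h3 := congrArg (fun f : ℕ →₀ F => f 0) h2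
    have h4 : D F (Finsupp.single (n + 1) (1 : F)) n = 1 := by
      show (Finsupp.single (n + 1) (1 : F)) (n + 1) = 1
      simp
    simp only [Finsupp.smul_apply, D_pow, zero_add, Finsupp.sub_apply, h4, smul_eq_mul] at h3
    have h5 : ((0 : Module.End F (WA F)) (Finsupp.single (n + 1) (1 : F), (0 : F))).1 0 = 0 := rfl
    rw [h5] at h3
    simp at h3

end Pool.Agent.H.MP_2c0ed3_al
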